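import Pool.Agent.H.MP_e70ed2_nt.J

namespace Pool.Agent.Results.MP_e70ed2_nt.Yes

open Pool.Agent.H.MP_e70ed2_nt

theorem result (h : Polynomial ℤ) (X : Set ℤ)
    (hX : X = Set.range (fun n : ℤ => h.eval n) ∨
      X = (fun p : ℕ => h.eval (p : ℤ)) '' {p | p.Prime}) :
    mu X = ⨆ m : ℕ+, (dd X m : ℝ) / m := by
  rcases hX with rfl | rfl
  · exact red (good_int h)
  · exact red (good_prime h)

end Pool.Agent.Results.MP_e70ed2_nt.Yes
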